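import Mathlib
import Pool.Agent.Helper531.FTO.Bad
import Pool.Agent.Helper531.FTO.Maps
import Pool.Agent.Helper531.FTO.Homog

set_option autoImplicit false

namespace Pool.Agent.Results.MP_861931_gt.FiniteToOne

open Set Topology Pool.Agent.Helper531.FTO

universe u

/-- continuous finite-to-one surjections -/
def FiniteToOneOnto {X Y : Type*} [TopologicalSpace X] [TopologicalSpace Y] (f : X → Y) : Prop :=
  Continuous f ∧ Function.Surjective f ∧ ∀ y : Y, (f ⁻¹' {y}).Finite

/-- homogeneous with respect to finite-to-one maps -/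
def FiniteToOneHomogeneous (X : Type*) [TopologicalSpace X] : Prop :=
  ∀ a b : X, ∃ f : X → X, FiniteToOneOnto f ∧ f a = b

/-- homogeneous -/
def Homogeneous (Y : Type*) [TopologicalSpace Y] : Prop :=
  ∀ a b : Y, ∃ h : Y ≃ₜ Y, h a = b

/-- equivalent with respect to finite-to-one maps -/
def FiniteToOneEquivalent (X Y : Type*) [TopologicalSpace X] [TopologicalSpace Y] : Prop :=
  (∃ f : X → Y, FiniteToOneOnto f) ∧ ∃ g : Y → X, FiniteToOneOnto g

/-- There is a continuum that is homogeneous with respect to finite-to-one maps, but is not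
equivalent, with respect to finite-to-one maps, to any homogeneous continuum. -/
theorem result : ∃ (X : Type) (_ : MetricSpace X), CompactSpace X ∧ ConnectedSpace X ∧
    FiniteToOneHomogeneous X ∧
    ∀ (Y : Type u) [MetricSpace Y] [CompactSpace Y] [ConnectedSpace Y],
      Homogeneous Y → ¬ FiniteToOneEquivalent X Y := by
  have hcomp : CompactSpace XS := isCompact_iff_compactSpace.mp XS_compact
  have hconn : ConnectedSpace XS := isConnected_iff_connectedSpace.mp XS_connected
  refine ⟨XS, inferInstance, hcomp, hconn, ?_, ?_⟩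
  · intro a b
    obtain ⟨f, h1, h2, h3, h4, h5⟩ := nice a.2 b.2
    refine ⟨h2.restrict f _ _, ⟨h1.mapsToRestrict h2, ?_, ?_⟩, Subtype.ext h5⟩
    · intro q
      obtain ⟨p, hp, hpq⟩ := h3 q.2
      exact ⟨⟨p, hp⟩, Subtype.ext hpq⟩
    · intro q
      apply Set.Finite.of_finite_image (f := Subtype.val) _ Subtype.val_injective.injOn
      apply (h4 q).subset
      rintro _ ⟨p, hp, rfl⟩
      exact ⟨p.2, congrArg Subtype.val hp⟩
  · intro Y _ _ _ hY ⟨⟨φ, hφ, hφs, hφf⟩, ψ, hψ, hψs, hψf⟩
    -- the pieces at a point of infinite order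
    have hmid : (((1 / 2 : ℝ), (0 : ℝ), (0 : ℝ)) : ℝ × ℝ × ℝ) ∈ XS := base_mem (by norm_num) (by norm_num)
    have hM : Mid (1 / 2) 0 := Mid.base
    have hpiece : ∃ y, Bad Y y := by
      refine bad_pullback ψ hψ hψs hψf ⟨_, hmid⟩ (fun j => Subtype.val ⁻¹' (tube (1 / 2) 0 j))
        (fun j => (tube_open _ _ _).preimage continuous_subtype_val) ?_ ?_ ?_ ?_
      · intro j
        have ht : (0:ℝ) < (1 / 12) * (1 / 3) ^ 0 * (1 / 2) ^ j := by positivity
        exact ⟨⟨_, leg_mem hM ht.le le_rfl⟩, mem_tube ht⟩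
      · intro k l hkl
        rw [Set.disjoint_left]
        rintro p hp1 hp2
        obtain ⟨-, e1, -⟩ := tube_inter hM p.2 hp1
        obtain ⟨-, e2, -⟩ := tube_inter hM p.2 hp2
        have h0 : 0 < (p : ℝ × ℝ × ℝ).2.1 := hp1.1
        rw [e1] at e2
        have e3 := mul_right_cancel₀ h0.ne' e2
        have e4 : k = l := by
          apply pow2_close
          · rw [← e3]; have := pow2_pos k; linarith
          · rw [← e3]; have := pow2_pos k; linarith
        exact hkl e4
      · intro j
        have hcl : IsClosed {p : XS | (p : ℝ × ℝ × ℝ).1 = 1 / 2 ∧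
            (p : ℝ × ℝ × ℝ).2.2 = (1 / 2) ^ j * (p : ℝ × ℝ × ℝ).2.1} :=
          (isClosed_eq (by fun_prop) continuous_const).inter
            (isClosed_eq (by fun_prop) (by fun_prop))
        have hsub : closure (Subtype.val ⁻¹' (tube (1 / 2) 0 j) : Set XS) ⊆
            {p : XS | (p : ℝ × ℝ × ℝ).1 = 1 / 2 ∧
              (p : ℝ × ℝ × ℝ).2.2 = (1 / 2) ^ j * (p : ℝ × ℝ × ℝ).2.1} := by
          apply closure_minimal _ hcl
          intro p hp
          obtain ⟨e1, e2, -⟩ := tube_inter hM p.2 hp
          exact ⟨e1, e2⟩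
        intro p hp
        obtain ⟨e1, e2⟩ := hsub hp
        rcases (t_nonneg p.2).lt_or_eq with h | h
        · left
          have hm := mem_tube (m := 1 / 2) (n := 0) (j := j) h
          have hpe : (p : ℝ × ℝ × ℝ) = (1 / 2, (p : ℝ × ℝ × ℝ).2.1,
              (1 / 2) ^ j * (p : ℝ × ℝ × ℝ).2.1) := Prod.ext e1 (Prod.ext rfl e2)
          rw [Set.mem_preimage, hpe]
          exact hm
        · right
          rw [mem_singleton_iff]
          apply Subtype.ext
          have := mem_cases p.2 h.symm
          rw [this, e1]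
      · intro j hj
        have h0 : (0:ℝ) < 0 := hj.1
        exact lt_irrefl _ h0
    obtain ⟨y0, hy0⟩ := hpiece
    have hall : ∀ y, Bad Y y := by
      intro y
      obtain ⟨h, hh⟩ := hY y0 y
      rw [← hh]
      exact hy0.map h
    -- so `Y` is countable
    have hloc : ∀ x : XS, x ∉ (Subtype.val ⁻¹' I : Set XS) → ∀ F : Set XS, F.Finite →
        ∃ N N1 N2 : Set XS, IsOpen N ∧ x ∈ N ∧ IsPreconnected N1 ∧ IsPreconnected N2 ∧
          N ⊆ {x} ∪ N1 ∪ N2 ∧ Disjoint N1 F ∧ Disjoint N2 F := by
      intro x hx F hF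
      obtain ⟨O, N1, N2, hO, hxO, hN1, hN2, hc1, hc2, hsub, hd1, hd2⟩ :=
        local_structure x.2 hx (Subtype.val '' F) (hF.image _)
      have himg : ∀ N : Set (ℝ × ℝ × ℝ), N ⊆ XS → Subtype.val '' (Subtype.val ⁻¹' N : Set XS) = N := by
        intro N hN
        rw [Subtype.image_preimage_coe, inter_eq_right.mpr hN]
      refine ⟨Subtype.val ⁻¹' O, Subtype.val ⁻¹' N1, Subtype.val ⁻¹' N2,
        hO.preimage continuous_subtype_val, hxO, ?_, ?_, ?_, ?_, ?_⟩
      · rw [← IsInducing.subtypeVal.isPreconnected_image, himg _ hN1]; exact hc1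
      · rw [← IsInducing.subtypeVal.isPreconnected_image, himg _ hN2]; exact hc2
      · intro p hp
        rcases hsub ⟨hp, p.2⟩ with (h | h) | h
        · left; left; exact Subtype.ext h
        · left; right; exact h
        · right; exact h
      · rw [Set.disjoint_left]
        intro p hp1 hp2
        exact Set.disjoint_left.mp hd1 hp1 ⟨p, hp2, rfl⟩
      · rw [Set.disjoint_left]
        intro p hp1 hp2
        exact Set.disjoint_left.mp hd2 hp1 ⟨p, hp2, rfl⟩
    have hIc : (Subtype.val ⁻¹' I : Set XS).Countable :=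
      I_countable.preimage Subtype.val_injective
    have hYc : (univ : Set Y).Countable := by
      apply (hIc.image φ).mono
      intro y _
      obtain ⟨x, hx, hxy⟩ := bad_push φ hφ hφs hφf _ hloc (hall y)
      exact ⟨x, hx, hxy⟩
    have hXc : (univ : Set XS).Countable := by
      have := hYc.image ψ
      rwa [image_univ, hψs.range_eq] at this
    have hcon : (Icc (0:ℝ) 1).Countable := by
      have h1 : ((fun p : XS => (p : ℝ × ℝ × ℝ).1) '' univ).Countable := hXc.image _
      apply h1.mono
      intro x hx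
      exact ⟨⟨_, base_mem hx.1 hx.2⟩, trivial, rfl⟩
    rw [Set.countable_iff_exists_subset_range] at hcon
    have h2 : ¬ (Icc (0:ℝ) 1).Countable := by
      intro hc
      have h3 := Cardinal.mk_Icc_real (show (0:ℝ) < 1 by norm_num)
      have h4 := Cardinal.le_aleph0_iff_set_countable.mpr hc
      rw [h3] at h4
      exact absurd h4 (not_le.mpr Cardinal.aleph0_lt_continuum)
    exact h2 (Set.countable_iff_exists_subset_range.mpr hcon)

end Pool.Agent.Results.MP_861931_gt.FiniteToOne
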